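import Mathlib
import Pool.Agent.Helper95.RevRec.Defs
import Pool.Agent.Helper95.RevRec.Proof

/-!
# A reversible recurrent walk whose directed polymer has positive `L²` critical value

The problem asks whether there is a reversible recurrent nearest-neighbour chain for which
`β_c > 0` or `β_2 > 0` for some environment law. The theorem `result` below answers YES: we give an
explicit chain for which `β_2 > 0` for every environment law allowed by the problem.
The definitions are in `Pool.Agent.Helper95.RevRec.Defs`, the proof is in
`Pool.Agent.Helper95.RevRec.Proof`.

The chain lives on a half-line `b_0, b_1, ...` (simple random walk weights) with a complete graph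
`T_i` on `D_i ^ 2 + 1` vertices attached to `b_i`; from `b_i` the walk enters `T_i` with
probability `1/2`, and from each vertex of `T_i` it leaves with probability `1 / D_i`, where
`D_i = 1024 ^ ((i + 1) ^ 2)`. It is reversible and (by a Foster type argument for the index `i`)
recurrent. Two independent copies of it collide so rarely that a bounded function `gR ≥ 1` of the
pair satisfies `E[(1 + κ 1{collision}) gR(next pair)] ≤ gR(pair)`, which bounds `E[W_n ^ 2]`
uniformly in `n` for all small `β`.
-/

set_option autoImplicit false

open MeasureTheory ProbabilityTheory
open scoped ENNReal NNReal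

namespace Pool.Agent.Results.MP_6abe48_pr.RevRecBeta2

open Pool.Agent.Helper95.RevRec

/-- **Yes**: there is a connected locally finite graph with a nearest-neighbour, irreducible,
reversible, recurrent Markov chain such that, for every environment law allowed, the `L²` critical
value of the directed polymer is positive at every starting point. -/
theorem result :
    ∃ (V : Type) (G : SimpleGraph V) (P : V → PMF V),
      Countable V ∧ Infinite V ∧ G.Connected ∧
      (∀ x y, P x y ≠ 0 → G.Adj x y) ∧ (∀ x, {y | P x y ≠ 0}.Finite) ∧
      IsIrreducible P ∧ IsReversible P ∧ IsRecurrent P ∧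
      (∃ (Ω : Type) (_ : MeasurableSpace Ω) (μ : Measure Ω) (ω : ℕ → V → Ω → ℝ),
        IsProbabilityMeasure μ ∧ IsEnvironment μ ω) ∧
      ∀ (Ω : Type) [MeasurableSpace Ω] (μ : Measure Ω) [IsProbabilityMeasure μ]
        (ω : ℕ → V → Ω → ℝ), IsEnvironment μ ω → ∀ x, 0 < beta2 P μ ω x :=
  Pool.Agent.Helper95.RevRec.main

end Pool.Agent.Results.MP_6abe48_pr.RevRecBeta2
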